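import Pool.Agent.Q83.Mean.Fin

/-!
# A connected graph whose mean subtree order is smaller than its mean connected set size

The graph: a cycle `0, 1, …, 2799`, with `r` leaves attached to the vertex `0` and `r` leaves
attached to the vertex `800` (`r` large), and a triangle attached to the vertex `400`.
In the limit `r → ∞` only the subtrees and connected sets containing the hubs `0` and `800`
matter. These are cycles minus a gap, and are enumerated exactly.
-/

set_option autoImplicit false

open SimpleGraph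

namespace Pool.Agent.Results.MP_589357_co.MeanSubtreeBelowMeanSet

/-- the average of `f` over the finite set `s` -/
noncomputable def average {α : Type} (s : Set α) (f : α → ℕ) : ℚ :=
  (∑ᶠ x ∈ s, (f x : ℚ)) / (s.ncard : ℚ)

/-- the mean subtree order `μ(G)`: the average number of vertices of the subgraphs of `G` which
are trees -/
noncomputable def meanSubtreeOrder {V : Type} (G : SimpleGraph V) : ℚ :=
  average {T : G.Subgraph | T.coe.IsTree} (fun T => T.verts.ncard)

/-- the mean connected set size `av(G)`: the average size of the sets of vertices which induce a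
connected graph -/
noncomputable def meanConnectedSetSize {V : Type} (G : SimpleGraph V) : ℚ :=
  average {S : Set V | (G.induce S).Connected} (fun S => S.ncard)

open Pool.Agent.Q83.Mean in
theorem connected_G (r : ℕ) : (G 2800 400 800 r).Connected := by
  have hO : Ok 2800 400 800 r 2799 2800 3 (Finset.Ico 2800 (2800 + 2 * r)) :=
    ⟨by omega, le_rfl, by omega, fun a ha => Finset.mem_Ico.1 ha, by omega, by omega⟩
  refine connected_of_height _ ⟨0, by omega⟩ (fun a => ht 2800 r 2799 3 a.1) ?_
  rintro ⟨a, ha⟩ ha0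
  have h0 : a ≠ 0 := by
    rintro rfl
    exact ha0 rfl
  have hV : InV 2800 r 2799 2800 3 (Finset.Ico 2800 (2800 + 2 * r)) a := by
    unfold InV
    rw [Finset.mem_Ico]
    omega
  obtain ⟨b, hb, hlt, hbn⟩ := low_spec hO (by omega) (by omega) (by omega) hV h0
  refine ⟨⟨b, hbn⟩, ?_, hlt⟩
  rcases hb with hb | hb
  · exact Or.inl (TR.spec hO (by omega) (by omega) (by omega) hb).1
  · exact Or.inr (TR.spec hO (by omega) (by omega) (by omega) hb).1

open Pool.Agent.Q83.Mean in
/-- **Main result.** There is a finite simple connected graph `G` with `μ(G) < av(G)`. -/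
theorem result : ∃ (n : ℕ) (G : SimpleGraph (Fin n)), G.Connected ∧
    meanSubtreeOrder G < meanConnectedSetSize G := by
  obtain ⟨mT, hmT⟩ : ∃ q : ℚ, q = ∑ d ∈ CT 400 400 2000, (sz 2800 d : ℚ) := ⟨_, rfl⟩
  obtain ⟨nT, hnT⟩ : ∃ q : ℚ, q = ((CT 400 400 2000).card : ℚ) := ⟨_, rfl⟩
  obtain ⟨mS, hmS⟩ : ∃ q : ℚ, q = ∑ d ∈ CS 399 399 1999, (sz 2800 d : ℚ) := ⟨_, rfl⟩
  obtain ⟨nS, hnS⟩ : ∃ q : ℚ, q = ((CS 399 399 1999).card : ℚ) := ⟨_, rfl⟩
  have vmT : mT = 28584814000 := (hmT.trans (size_CT 400 400 2000)).trans (by norm_num)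
  have vnT : nT = 13128400 := (hnT.trans (card_CT 400 400 2000)).trans (by norm_num)
  have vmS : mS = 19150300804 := (hmS.trans (size_CS 399 399 1999)).trans (by norm_num)
  have vnS : nS = 8794404 := (hnS.trans (card_CS 399 399 1999)).trans (by norm_num)
  obtain ⟨X, hX1, hXall⟩ := both_bounds (N := 2800) (M := 400) (c := 800)
    (m := 399) (e := 399) (B := 1999) rfl rfl rfl
  have hX : (1 : ℚ) ≤ X := by exact_mod_cast hX1
  obtain ⟨r, hr⟩ := exists_pow ((X : ℚ) * (mT + (2800 + 2) * (nS + 1)))
    ((X : ℚ) * (nT + 2 * (nS + 1)))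
  obtain ⟨⟨dT, ET, hET, _, hdT, hdT', hT⟩, ⟨dS, ES, hES, hES', hdS, hS⟩⟩ := hXall r
  rw [show 399 + 1 = 400 from rfl, show 1999 + 1 = 2000 from rfl, ← hmT, ← hnT] at hT
  rw [← hmS, ← hnS] at hS
  refine ⟨2800 + 2 * r + 2, G 2800 400 800 r, connected_G r, ?_⟩
  have h := assemble (mT := mT) (nT := nT) (mS := mS) (nS := nS) (n0 := 2800) hX (by rw [vmT]; norm_num) (by rw [vnT]; norm_num)
    (by rw [vmS]; norm_num) (by rw [vnS]; norm_num) (by norm_num)
    (by rw [vmT, vnT, vmS, vnS]; norm_num) hr hET hdT (by exact_mod_cast hdT') hES hES' hdS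
  rw [← hT, ← hS] at h
  exact h

end Pool.Agent.Results.MP_589357_co.MeanSubtreeBelowMeanSet
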